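import Pool.Agent.Helper18.RD.Stmts3

/-! Row LLC of the project RD (MP_b7477f_nt). -/

set_option autoImplicit false

namespace Pool.Agent.Helper52.RD

open Finset Pool.Agent.Helper18.RD

lemma gg_nonneg (r : ℕ) : 0 ≤ gg r := by
  unfold gg
  refine Finset.prod_nonneg fun p hp => ?_
  have h := (Nat.prime_of_mem_primeFactors hp).two_le
  have h' : (2 : ℝ) ≤ p := by exact_mod_cast h
  exact div_nonneg (by linarith) (by linarith)

lemma gg_mul (r p : ℕ) (hr : r ≠ 0) (hp : p.Prime) (h3 : 3 ≤ p) (hpr : ¬ p ∣ r) :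
    gg r / 2 ≤ gg (r * p) := by
  have h2 := gg_nonneg r
  have h4 : gg (r * p) = gg r * (((p : ℝ) - 1) / (p + 1)) := by
    unfold gg
    rw [Nat.primeFactors_mul hr hp.ne_zero, hp.primeFactors, Finset.prod_union,
      Finset.prod_singleton]
    rw [Finset.disjoint_singleton_right]
    intro h
    exact hpr (Nat.dvd_of_mem_primeFactors h)
  have h3' : (3 : ℝ) ≤ p := by exact_mod_cast h3
  have h1 : (1 / 2 : ℝ) ≤ ((p : ℝ) - 1) / (p + 1) := by
    rw [div_le_div_iff₀ (by norm_num) (by linarith)]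
    linarith
  rw [h4]
  nlinarith

/-- the primes used -/
def Gp (q y n : ℕ) : Finset ℕ :=
  (range (n + 1)).filter (fun p => p.Prime ∧ y < p ∧ Nat.Coprime p (2 * q))

lemma Gp_card (q y n Q : ℕ) (hq : 1 ≤ q) (hn : n ≤ Q) :
    Nat.primeCounting n ≤ (Gp q y n).card + (y + 1) + 1 + (PP q Q).card := by
  have h1 : Nat.primeCounting n = ((range (n + 1)).filter Nat.Prime).card := by
    rw [Nat.primeCounting, Nat.primeCounting', Nat.count_eq_card_filter_range]
  rw [h1]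
  have h2 : (range (n + 1)).filter Nat.Prime ⊆
      ((Gp q y n ∪ range (y + 1)) ∪ {2}) ∪ PP q Q := by
    intro p hp
    obtain ⟨hp1, hp2⟩ := Finset.mem_filter.1 hp
    rw [Finset.mem_union, Finset.mem_union, Finset.mem_union]
    by_cases h3 : p ≤ y
    · exact Or.inl (Or.inl (Or.inr (Finset.mem_range.2 (by omega))))
    · by_cases h4 : Nat.Coprime p (2 * q)
      · exact Or.inl (Or.inl (Or.inl (Finset.mem_filter.2 ⟨hp1, hp2, by omega, h4⟩)))
      · by_cases h5 : p = 2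
        · exact Or.inl (Or.inr (Finset.mem_singleton.2 h5))
        · right
          have h6 : p ∣ 2 * q := by
            by_contra h7
            exact h4 ((Nat.Prime.coprime_iff_not_dvd hp2).2 h7)
          have h7 : p ∣ q := by
            rcases (hp2.dvd_mul).1 h6 with h8 | h8
            · exact absurd ((Nat.prime_dvd_prime_iff_eq hp2 Nat.prime_two).1 h8) h5
            · exact h8
          refine Finset.mem_filter.2 ⟨Finset.mem_erase.2 ⟨h5, ?_⟩, ?_⟩
          · exact Nat.mem_primeFactors.2 ⟨hp2, h7, by omega⟩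
          · have := Finset.mem_range.1 hp1
            omega
  refine (Finset.card_le_card h2).trans ?_
  refine (Finset.card_union_le _ _).trans (Nat.add_le_add_right ?_ _)
  refine (Finset.card_union_le _ _).trans ?_
  rw [Finset.card_singleton]
  refine Nat.add_le_add_right ?_ _
  refine (Finset.card_union_le _ _).trans ?_
  rw [Finset.card_range]

/-- the sum over the products `r₁ p` -/
lemma sum_prod (q Q y : ℕ) (hy : 2 ≤ y) :
    ∑ r ∈ RR q y, ((Gp q y (Q / r)).card : ℝ) * (gg r / 2) ≤ ∑ r ∈ RR q Q, gg r := by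
  classical
  set A : Finset (Σ _ : ℕ, ℕ) := (RR q y).sigma (fun r => Gp q y (Q / r)) with hA
  set f : (Σ _ : ℕ, ℕ) → ℕ := fun t => t.1 * t.2 with hf
  have hmem : ∀ t ∈ A, 1 ≤ t.1 ∧ t.1 ≤ y ∧ Squarefree t.1 ∧ Nat.Coprime t.1 (2 * q) ∧
      t.2 ≤ Q / t.1 ∧ t.2.Prime ∧ y < t.2 ∧ Nat.Coprime t.2 (2 * q) := by
    intro t ht
    obtain ⟨h1, h2⟩ := Finset.mem_sigma.1 ht
    obtain ⟨h3, h4, h5⟩ := Finset.mem_filter.1 h1
    obtain ⟨h6, h7, h8, h9⟩ := Finset.mem_filter.1 h2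
    obtain ⟨h10, h11⟩ := Finset.mem_Icc.1 h3
    have := Finset.mem_range.1 h6
    exact ⟨h10, h11, h4, h5, by omega, h7, h8, h9⟩
  have hinj : Set.InjOn f A := by
    rintro ⟨r, p⟩ ht ⟨r', p'⟩ ht' h
    obtain ⟨a1, a2, -, -, -, a6, a7, -⟩ := hmem _ ht
    obtain ⟨b1, b2, -, -, -, b6, b7, -⟩ := hmem _ ht'
    dsimp only at a1 a2 a6 a7 b1 b2 b6 b7
    have h' : r * p = r' * p' := h
    have hpp : p = p' := by
      have h1 : p ∣ r' * p' := h' ▸ Dvd.intro_left r rfl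
      rcases (a6.dvd_mul).1 h1 with h2 | h2
      · have := Nat.le_of_dvd (by omega) h2
        omega
      · exact (Nat.prime_dvd_prime_iff_eq a6 b6).1 h2
    subst hpp
    have h3 : r = r' := Nat.eq_of_mul_eq_mul_right a6.pos h'
    subst h3
    rfl
  have hsub : A.image f ⊆ RR q Q := by
    intro n hn
    obtain ⟨t, ht, rfl⟩ := Finset.mem_image.1 hn
    obtain ⟨a1, a2, a3, a4, a5, a6, a7, a8⟩ := hmem _ ht
    have hndvd : ¬ t.2 ∣ t.1 := by
      intro h
      have := Nat.le_of_dvd (by omega) h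
      omega
    refine Finset.mem_filter.2 ⟨Finset.mem_Icc.2 ⟨?_, ?_⟩, ?_, ?_⟩
    · exact Nat.mul_pos (by omega) a6.pos
    · show t.1 * t.2 ≤ Q
      calc t.1 * t.2 ≤ t.1 * (Q / t.1) := Nat.mul_le_mul_left _ a5
        _ ≤ Q := Nat.mul_div_le _ _
    · exact (Nat.squarefree_mul ((Nat.Prime.coprime_iff_not_dvd a6).2 hndvd).symm).2
        ⟨a3, a6.squarefree⟩
    · exact Nat.Coprime.mul_left a4 a8
  calc ∑ r ∈ RR q y, ((Gp q y (Q / r)).card : ℝ) * (gg r / 2)
      = ∑ r ∈ RR q y, ∑ _p ∈ Gp q y (Q / r), gg r / 2 := by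
        refine Finset.sum_congr rfl fun r _ => ?_
        rw [Finset.sum_const, nsmul_eq_mul]
    _ = ∑ t ∈ A, gg t.1 / 2 := by
        rw [hA, Finset.sum_sigma]
    _ ≤ ∑ t ∈ A, gg (f t) := by
        refine Finset.sum_le_sum fun t ht => ?_
        obtain ⟨a1, a2, -, -, -, a6, a7, -⟩ := hmem _ ht
        refine gg_mul t.1 t.2 (by omega) a6 (by omega) ?_
        intro h
        have := Nat.le_of_dvd (by omega) h
        omega
    _ = ∑ n ∈ A.image f, gg n := (Finset.sum_image hinj).symm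
    _ ≤ ∑ r ∈ RR q Q, gg r :=
        Finset.sum_le_sum_of_subset_of_nonneg hsub fun n _ _ => gg_nonneg n

/-- large `Q` -/
lemma large (η : ℝ) (h0 : 0 < η) (h1 : η < 1) : ∃ Q₀ : ℝ, 3 ≤ Q₀ ∧ ∀ Q : ℝ, Q₀ ≤ Q →
    100 ≤ Q ^ (1 - η / 2) ∧ 2 ≤ Q ^ (η / 2) ∧
    (Q ^ (η / 2) + 2 + Q ^ (1 - η)) * Real.log Q ≤ Q ^ (1 - η / 2) / 4 := by
  have e1 := (isLittleO_log_rpow_atTop (r := 1 - η) (by linarith)).bound
    (show (0 : ℝ) < 1 / 24 by norm_num)
  have e2 := (isLittleO_log_rpow_atTop (r := 1 - η / 2) (by linarith)).bound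
    (show (0 : ℝ) < 1 / 24 by norm_num)
  have e3 := (isLittleO_log_rpow_atTop (r := η / 2) (by linarith)).bound
    (show (0 : ℝ) < 1 / 24 by norm_num)
  have e4 := (tendsto_rpow_atTop (y := 1 - η / 2) (by linarith)).eventually_ge_atTop 100
  have e5 := (tendsto_rpow_atTop (y := η / 2) (by linarith)).eventually_ge_atTop 2
  obtain ⟨Q₀, hQ₀⟩ := Filter.eventually_atTop.1 (e1.and (e2.and (e3.and (e4.and e5))))
  refine ⟨max Q₀ 3, le_max_right _ _, fun Q hQ => ?_⟩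
  obtain ⟨a1, a2, a3, a4, a5⟩ := hQ₀ Q ((le_max_left _ _).trans hQ)
  have hQ3 : 3 ≤ Q := (le_max_right _ _).trans hQ
  have hQ0 : 0 < Q := by linarith
  have hl : 0 ≤ Real.log Q := Real.log_nonneg (by linarith)
  rw [Real.norm_of_nonneg hl, Real.norm_of_nonneg (Real.rpow_nonneg hQ0.le _)] at a1 a2 a3
  refine ⟨a4, a5, ?_⟩
  have b1 : Q ^ (η / 2) * Real.log Q ≤ 1 / 24 * Q ^ (1 - η / 2) := by
    have h2 := mul_le_mul_of_nonneg_left a1 (Real.rpow_nonneg hQ0.le (η / 2))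
    have h3 : Q ^ (η / 2) * (1 / 24 * Q ^ (1 - η)) = 1 / 24 * Q ^ (1 - η / 2) := by
      have h4 : Q ^ (η / 2) * Q ^ (1 - η) = Q ^ (1 - η / 2) := by
        rw [← Real.rpow_add hQ0]
        congr 1
        ring
      rw [← h4]
      ring
    linarith
  have b3 : Q ^ (1 - η) * Real.log Q ≤ 1 / 24 * Q ^ (1 - η / 2) := by
    have h2 := mul_le_mul_of_nonneg_left a3 (Real.rpow_nonneg hQ0.le (1 - η))
    have h3 : Q ^ (1 - η) * (1 / 24 * Q ^ (η / 2)) = 1 / 24 * Q ^ (1 - η / 2) := by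
      have h4 : Q ^ (1 - η) * Q ^ (η / 2) = Q ^ (1 - η / 2) := by
        rw [← Real.rpow_add hQ0]
        congr 1
        ring
      rw [← h4]
      ring
    linarith
  have b4 : 0 ≤ Q ^ (1 - η / 2) := Real.rpow_nonneg hQ0.le _
  nlinarith

/-- the number of primes -/
lemma Gp_low (η : ℝ) (q Q y r : ℕ) (hq : 1 ≤ q) (hQ : 3 ≤ Q) (hr : 1 ≤ r) (hry : r ≤ y)
    (hy : (y : ℝ) ≤ (Q : ℝ) ^ (η / 2)) (hPP : ((PP q Q).card : ℝ) ≤ (Q : ℝ) ^ (1 - η))
    (h100 : 100 ≤ (Q : ℝ) ^ (1 - η / 2))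
    (hl : ((Q : ℝ) ^ (η / 2) + 2 + (Q : ℝ) ^ (1 - η)) * Real.log Q ≤
      (Q : ℝ) ^ (1 - η / 2) / 4) :
    (Q : ℝ) / r / 4 ≤ ((Gp q y (Q / r)).card : ℝ) * Real.log Q := by
  have hQ0 : (0 : ℝ) < Q := by
    have : (3 : ℝ) ≤ Q := by exact_mod_cast hQ
    linarith
  have hQ3 : (3 : ℝ) ≤ Q := by exact_mod_cast hQ
  have hr0 : (0 : ℝ) < r := by exact_mod_cast hr
  have hry' : (r : ℝ) ≤ (Q : ℝ) ^ (η / 2) := le_trans (by exact_mod_cast hry) hy
  set t : ℝ := (Q : ℝ) / r with ht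
  have ht1 : (Q : ℝ) ^ (1 - η / 2) ≤ t := by
    rw [ht, le_div_iff₀ hr0]
    calc (Q : ℝ) ^ (1 - η / 2) * r ≤ (Q : ℝ) ^ (1 - η / 2) * (Q : ℝ) ^ (η / 2) :=
          mul_le_mul_of_nonneg_left hry' (Real.rpow_nonneg hQ0.le _)
      _ = Q := by
          rw [← Real.rpow_add hQ0]
          have : 1 - η / 2 + η / 2 = (1 : ℝ) := by ring
          rw [this, Real.rpow_one]
  have ht100 : 100 ≤ t := h100.trans ht1
  set n : ℕ := Q / r with hn
  have hn1 : t - 1 ≤ n := by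
    have h1 : Q < (Q / r + 1) * r := by
      rw [Nat.mul_comm]
      exact Nat.lt_mul_div_succ Q (by omega)
    have h2 : (Q : ℝ) < ((n : ℝ) + 1) * r := by
      rw [hn]
      exact_mod_cast h1
    rw [ht, sub_le_iff_le_add, div_le_iff₀ hr0]
    linarith
  have hn2 : (n : ℝ) ≤ t := by
    rw [hn, ht]
    exact Nat.cast_div_le
  have hnQ : n ≤ Q := Nat.div_le_self _ _
  have hlogQ : 0 ≤ Real.log Q := Real.log_nonneg (by linarith)
  -- Chebyshev
  have c1 := Chebyshev.psi_ge n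
  have c2 := Chebyshev.psi_le_primeCounting_mul_log n
  have hn99 : (99 : ℝ) ≤ n := by linarith
  have c3 : Real.log n ≤ Real.log Q := Real.log_le_log (by linarith) (by exact_mod_cast hnQ)
  have c4 : (Nat.primeCounting n : ℝ) * Real.log n ≤ (Nat.primeCounting n : ℝ) * Real.log Q :=
    mul_le_mul_of_nonneg_left c3 (Nat.cast_nonneg _)
  have c5 : Real.log ((n : ℝ) + 1) ≤ (n : ℝ) / 10 := by
    have h1 : Real.log (((n : ℝ) + 1) / 50) ≤ ((n : ℝ) + 1) / 50 - 1 :=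
      Real.log_le_sub_one_of_pos (by positivity)
    rw [Real.log_div (by linarith) (by norm_num)] at h1
    have h2 : Real.log 50 ≤ 4 := by
      rw [Real.log_le_iff_le_exp (by norm_num)]
      have h3 : (2.7 : ℝ) ≤ Real.exp 1 := by
        have := Real.exp_one_gt_d9
        linarith
      have h4 : Real.exp 4 = Real.exp 1 ^ 4 := by
        rw [← Real.exp_nat_mul]
        norm_num
      rw [h4]
      calc (50 : ℝ) ≤ 2.7 ^ 4 := by norm_num
        _ ≤ Real.exp 1 ^ 4 := pow_le_pow_left₀ (by norm_num) h3 4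
    linarith
  have c6 : (0.69 : ℝ) ≤ Real.log 2 := by
    have := Real.log_two_gt_d9
    linarith
  have c7 : t / 2 ≤ (Nat.primeCounting n : ℝ) * Real.log Q := by
    have h1 : (n : ℝ) * 0.69 ≤ n * Real.log 2 := mul_le_mul_of_nonneg_left c6 (by linarith)
    linarith
  -- the bad primes
  have d1 : (Nat.primeCounting n : ℝ) ≤ (Gp q y n).card + (y + 1) + 1 + (PP q Q).card := by
    exact_mod_cast Gp_card q y n Q hq hnQ
  have d2 := mul_le_mul_of_nonneg_right d1 hlogQ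
  have d3 : ((y : ℝ) + 2 + (PP q Q).card) * Real.log Q ≤
      ((Q : ℝ) ^ (η / 2) + 2 + (Q : ℝ) ^ (1 - η)) * Real.log Q :=
    mul_le_mul_of_nonneg_right (by linarith) hlogQ
  nlinarith

theorem st_LLC (hA : ST_LLA) (hB : ST_LLB) : ST_LLC := by
  intro η h0 h1
  obtain ⟨K, hK, hB'⟩ := hB
  obtain ⟨Q₀, hQ₀3, hQ₀⟩ := large η h0 h1
  refine ⟨min (1 / Q₀) (η / (32 * K)), lt_min (by positivity) (by positivity),
    fun q Q hq hQ hPP => ?_⟩
  have hq0 : (0 : ℝ) < q := by exact_mod_cast hq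
  have hφ0 : (0 : ℝ) < Nat.totient q := by exact_mod_cast Nat.totient_pos.2 hq
  have hφ1 : (Nat.totient q : ℝ) / q ≤ 1 := by
    rw [div_le_one hq0]
    exact_mod_cast Nat.totient_le q
  have hφn : 0 ≤ (Nat.totient q : ℝ) / q := by positivity
  have hQ1 : (1 : ℝ) ≤ Q := by exact_mod_cast hQ
  rcases lt_or_ge (Q : ℝ) Q₀ with hlt | hge
  · -- small `Q`
    have h2 : (1 : ℝ) ≤ ∑ r ∈ RR q Q, gg r := by
      have h3 : (1 : ℕ) ∈ RR q Q :=
        Finset.mem_filter.2 ⟨Finset.mem_Icc.2 ⟨le_rfl, hQ⟩, squarefree_one,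
          Nat.coprime_one_left _⟩
      have h4 : gg 1 = 1 := by
        unfold gg
        rw [Nat.primeFactors_one, Finset.prod_empty]
      calc (1 : ℝ) = gg 1 := h4.symm
        _ ≤ ∑ r ∈ RR q Q, gg r :=
          Finset.single_le_sum (fun r _ => gg_nonneg r) h3
    refine le_trans ?_ h2
    have h3 : (Q : ℝ) * ((Nat.totient q : ℝ) / q) ≤ Q := mul_le_of_le_one_right (by linarith) hφ1
    calc min (1 / Q₀) (η / (32 * K)) * ((Q : ℝ) * ((Nat.totient q : ℝ) / q))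
        ≤ (1 / Q₀) * ((Q : ℝ) * ((Nat.totient q : ℝ) / q)) :=
          mul_le_mul_of_nonneg_right (min_le_left _ _) (by positivity)
      _ ≤ (1 / Q₀) * Q := mul_le_mul_of_nonneg_left h3 (by positivity)
      _ ≤ (1 / Q₀) * Q₀ := mul_le_mul_of_nonneg_left hlt.le (by positivity)
      _ = 1 := by
          field_simp
  · -- large `Q`
    obtain ⟨a1, a2, a3⟩ := hQ₀ Q hge
    have hQ3 : 3 ≤ Q := by
      have : (3 : ℝ) ≤ Q := hQ₀3.trans hge
      exact_mod_cast this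
    have hQ0 : (0 : ℝ) < Q := by linarith
    set y : ℕ := ⌊(Q : ℝ) ^ (η / 2)⌋₊ with hy
    have hy1 : (y : ℝ) ≤ (Q : ℝ) ^ (η / 2) := Nat.floor_le (Real.rpow_nonneg hQ0.le _)
    have hy2 : (Q : ℝ) ^ (η / 2) < (y : ℝ) + 1 := Nat.lt_floor_add_one _
    have hy3 : 2 ≤ y := Nat.le_floor (by exact_mod_cast a2)
    have hlog : 0 < Real.log Q := Real.log_pos (by linarith)
    have b1 := sum_prod q Q y hy3
    have b2 : (Q : ℝ) / 8 * ∑ r ∈ RR q y, gg r / (r : ℝ) ≤
        Real.log Q * ∑ r ∈ RR q y, ((Gp q y (Q / r)).card : ℝ) * (gg r / 2) := by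
      rw [Finset.mul_sum, Finset.mul_sum]
      refine Finset.sum_le_sum fun r hr => ?_
      obtain ⟨h2, -, -⟩ := Finset.mem_filter.1 hr
      obtain ⟨h3, h4⟩ := Finset.mem_Icc.1 h2
      have h5 := Gp_low η q Q y r hq hQ3 h3 h4 hy1 hPP a1 a3
      have h6 : 0 ≤ gg r / 2 := by
        have := gg_nonneg r
        linarith
      have h7 := mul_le_mul_of_nonneg_right h5 h6
      have h8 : (Q : ℝ) / 8 * (gg r / (r : ℝ)) = (Q : ℝ) / r / 4 * (gg r / 2) := by ring
      rw [h8]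
      linarith
    have b3 : Real.log Q * ∑ r ∈ RR q y, ((Gp q y (Q / r)).card : ℝ) * (gg r / 2) ≤
        Real.log Q * ∑ r ∈ RR q Q, gg r := mul_le_mul_of_nonneg_left b1 hlog.le
    -- the harmonic sums
    have c1 : η / 2 * Real.log Q ≤ ∑ m ∈ Icc 1 y, 1 / (m : ℝ) := by
      have h2 := log_add_one_le_harmonic y
      have h3 : ((harmonic y : ℚ) : ℝ) = ∑ m ∈ Icc 1 y, 1 / (m : ℝ) := by
        rw [harmonic_eq_sum_Icc]
        push_cast
        refine Finset.sum_congr rfl fun m _ => ?_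
        rw [one_div]
      rw [h3] at h2
      refine le_trans ?_ h2
      rw [← Real.log_rpow hQ0]
      refine Real.log_le_log (Real.rpow_pos_of_pos hQ0 _) ?_
      push_cast
      exact hy2.le
    have c2 := hA q y hq
    have c3 := hB' q y
    set Hs : ℝ := ∑ m ∈ Icc 1 y, 1 / (m : ℝ) with hHs
    set Cs : ℝ := ∑ m ∈ (Icc 1 y).filter (fun m => Nat.Coprime m (2 * q)), 1 / (m : ℝ) with hCs
    set Gs : ℝ := ∑ r ∈ RR q y, gg r / (r : ℝ) with hGs
    set L : ℝ := ∑ r ∈ RR q Q, gg r with hL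
    have d1 : Hs * ((Nat.totient q : ℝ) / q) ≤ 2 * Cs := by
      have h2 := mul_le_mul_of_nonneg_right c2 hφn
      have h3 : 2 * ((q : ℝ) / (Nat.totient q : ℝ)) * Cs * ((Nat.totient q : ℝ) / q) =
          2 * Cs := by
        field_simp
      rw [h3] at h2
      exact h2
    have d2 : η / 2 * Real.log Q * ((Nat.totient q : ℝ) / q) ≤ 2 * (K * Gs) := by
      have h2 := mul_le_mul_of_nonneg_right c1 hφn
      linarith
    have d3 : (Q : ℝ) / 8 * Gs ≤ Real.log Q * L := b2.trans b3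
    have d4 : (η / (32 * K)) * ((Q : ℝ) * ((Nat.totient q : ℝ) / q)) ≤ L := by
      have h2 : (Q : ℝ) / (16 * K) * (η / 2 * Real.log Q * ((Nat.totient q : ℝ) / q)) ≤
          (Q : ℝ) / (16 * K) * (2 * (K * Gs)) := mul_le_mul_of_nonneg_left d2 (by positivity)
      have h3 : (Q : ℝ) / (16 * K) * (2 * (K * Gs)) = (Q : ℝ) / 8 * Gs := by
        field_simp
        ring
      have h4 : (Q : ℝ) / (16 * K) * (η / 2 * Real.log Q * ((Nat.totient q : ℝ) / q)) =
          Real.log Q * ((η / (32 * K)) * ((Q : ℝ) * ((Nat.totient q : ℝ) / q))) := by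
        field_simp
        ring
      rw [h3, h4] at h2
      exact le_of_mul_le_mul_left (h2.trans d3) hlog
    refine le_trans ?_ d4
    exact mul_le_mul_of_nonneg_right (min_le_right _ _) (by positivity)

end Pool.Agent.Helper52.RD
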