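import Pool.Agent.Helper18.RD.Stmts4
import Pool.Agent.Helper15.HallDiv

/-! Row PEL of the project RD (MP_b7477f_nt): few solutions of `a α² - b β² = c` in a box. -/

set_option autoImplicit false

namespace Pool.Agent.Helper52.RD

open Finset Pool.Agent.Helper18.RD

lemma log_step (v1 v2 : ℝ) (h1 : 1 ≤ v1) (h : 2 * v1 ≤ v2) :
    Nat.log 2 ⌊v1⌋₊ < Nat.log 2 ⌊v2⌋₊ := by
  have h2 : 1 ≤ ⌊v1⌋₊ := Nat.le_floor (by exact_mod_cast h1)
  have h3 : ⌊v1⌋₊ * 2 ≤ ⌊v2⌋₊ := by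
    refine Nat.le_floor ?_
    push_cast
    have h4 : (⌊v1⌋₊ : ℝ) ≤ v1 := Nat.floor_le (by linarith)
    linarith
  have h4 : Nat.log 2 (⌊v1⌋₊ * 2) = Nat.log 2 ⌊v1⌋₊ + 1 :=
    Nat.log_mul_base (by norm_num) (by omega)
  have h5 := Nat.log_mono_right (b := 2) h3
  omega

/-- primitive part and root of a solution -/
lemma ex_root (d : ℕ) (m : ℤ) (hm : m ≠ 0) (X Y : ℕ) (hX : 1 ≤ X) (hY : 1 ≤ Y)
    (he : (X : ℤ) ^ 2 - d * (Y : ℤ) ^ 2 = m) :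
    ∃ (h t X' Y' : ℕ) (m' : ℤ), 1 ≤ h ∧ X = h * X' ∧ Y = h * Y' ∧ m = (h : ℤ) ^ 2 * m' ∧
      m' ≠ 0 ∧ (X' : ℤ) ^ 2 - d * (Y' : ℤ) ^ 2 = m' ∧ t < m'.natAbs ∧
      m' ∣ (X' : ℤ) - t * Y' ∧ m' ∣ (t : ℤ) ^ 2 - d ∧ 1 ≤ X' ∧ 1 ≤ Y' := by
  obtain ⟨h, hh⟩ : ∃ h, h = Nat.gcd X Y := ⟨_, rfl⟩
  have hpos : 0 < h := hh ▸ Nat.gcd_pos_of_pos_left _ (by omega)
  obtain ⟨X', hX'⟩ : h ∣ X := hh ▸ Nat.gcd_dvd_left _ _
  obtain ⟨Y', hY'⟩ : h ∣ Y := hh ▸ Nat.gcd_dvd_right _ _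
  have hcop : Nat.Coprime X' Y' := by
    have h1 : Nat.gcd (h * X') (h * Y') = h * 1 := by
      rw [← hX', ← hY', ← hh, mul_one]
    rw [Nat.gcd_mul_left] at h1
    exact Nat.eq_of_mul_eq_mul_left hpos h1
  obtain ⟨m', hm'⟩ : ∃ m' : ℤ, m' = (X' : ℤ) ^ 2 - d * (Y' : ℤ) ^ 2 := ⟨_, rfl⟩
  have hmm : m = (h : ℤ) ^ 2 * m' := by
    rw [hm', ← he, hX', hY']
    push_cast
    ring
  have hm0 : m' ≠ 0 := by
    intro h0
    rw [h0, mul_zero] at hmm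
    exact hm hmm
  have hcY : IsCoprime (Y' : ℤ) m' := by
    have h1 : IsCoprime (Y' : ℤ) ((X' : ℤ) ^ 2) :=
      (Nat.isCoprime_iff_coprime.2 hcop.symm).pow_right
    have h2 : m' = (X' : ℤ) ^ 2 + (Y' : ℤ) * (-(d * Y')) := by
      rw [hm']
      ring
    rw [h2]
    exact (IsCoprime.add_mul_left_right_iff).2 h1
  obtain ⟨u, w, huw⟩ := hcY
  -- `u` is the inverse of `Y'` modulo `m'`
  obtain ⟨t0, ht0⟩ : ∃ t0 : ℤ, t0 = (X' * u) % m' := ⟨_, rfl⟩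
  have ht1 : 0 ≤ t0 := ht0 ▸ Int.emod_nonneg _ hm0
  have ht2 : t0 < |m'| := ht0 ▸ Int.emod_lt_abs _ hm0
  have ht3 : m' ∣ X' * u - t0 := by
    rw [ht0]
    exact Int.dvd_self_sub_emod
  have ht4 : m' ∣ (X' : ℤ) - t0 * Y' := by
    obtain ⟨k, hk⟩ := ht3
    refine ⟨k * Y' + w * X', ?_⟩
    have h1 : (X' : ℤ) = X' * (u * Y' + w * m') := by rw [huw, mul_one]
    have h2 : t0 = X' * u - m' * k := by linarith
    calc (X' : ℤ) - t0 * Y' = X' * (u * Y' + w * m') - t0 * Y' := by rw [← h1]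
      _ = m' * (k * Y' + w * X') := by
        rw [h2]
        ring
  have ht5 : m' ∣ t0 ^ 2 - d := by
    have hc2 : IsCoprime m' ((Y' : ℤ) ^ 2) := (IsCoprime.pow_right ⟨w, u, by linarith⟩)
    refine hc2.dvd_of_dvd_mul_right ?_
    obtain ⟨k, hk⟩ := ht4
    refine ⟨1 - k * (X' + t0 * Y'), ?_⟩
    have h2 : (X' : ℤ) ^ 2 - d * (Y' : ℤ) ^ 2 = m' := hm'.symm
    have h3 : (X' : ℤ) ^ 2 - t0 ^ 2 * Y' ^ 2 = m' * k * (X' + t0 * Y') := by
      rw [← hk]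
      ring
    linear_combination h2 - h3
  refine ⟨h, t0.toNat, X', Y', m', hpos, hX', hY', hmm, hm0, hm'.symm, ?_, ?_, ?_, ?_, ?_⟩
  · have h1 : (t0.toNat : ℤ) < (m'.natAbs : ℤ) := by
      rw [Int.toNat_of_nonneg ht1, Int.natCast_natAbs]
      exact ht2
    exact_mod_cast h1
  · rw [Int.toNat_of_nonneg ht1]
    exact ht4
  · rw [Int.toNat_of_nonneg ht1]
    exact ht5
  · rcases Nat.eq_zero_or_pos X' with h0 | h0
    · rw [h0, mul_zero] at hX'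
      omega
    · exact h0
  · rcases Nat.eq_zero_or_pos Y' with h0 | h0
    · rw [h0, mul_zero] at hY'
      omega
    · exact h0

open Classical in
/-- counting the solutions by class and size -/
lemma cnt (hG : ST_PGR) (d : ℕ) (hd : 2 ≤ d) (hds : ¬ IsSquare d) (m : ℤ) (hm : m ≠ 0)
    (W : ℝ) (T : Finset (ℕ × ℕ)) (hT : ∀ p ∈ T, 1 ≤ p.1 ∧ 1 ≤ p.2 ∧
      (p.1 : ℤ) ^ 2 - d * (p.2 : ℤ) ^ 2 = m ∧ (p.1 : ℝ) + p.2 * Real.sqrt d ≤ W) :
    T.card ≤ ∑ h ∈ m.natAbs.divisors,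
      ((range (m.natAbs / h ^ 2)).filter
        (fun t : ℕ => ((m.natAbs / h ^ 2 : ℕ) : ℤ) ∣ (t : ℤ) ^ 2 - d)).card *
        (Nat.log 2 ⌊W⌋₊ + 1) := by
  have hex : ∀ p : ℕ × ℕ, ∃ (h t X' Y' : ℕ) (m' : ℤ), p ∈ T → 1 ≤ h ∧ p.1 = h * X' ∧
      p.2 = h * Y' ∧ m = (h : ℤ) ^ 2 * m' ∧ m' ≠ 0 ∧ (X' : ℤ) ^ 2 - d * (Y' : ℤ) ^ 2 = m' ∧
      t < m'.natAbs ∧ m' ∣ (X' : ℤ) - t * Y' ∧ m' ∣ (t : ℤ) ^ 2 - d ∧ 1 ≤ X' ∧ 1 ≤ Y' := by
    intro p
    by_cases hp : p ∈ T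
    · obtain ⟨h1, h2, h3, -⟩ := hT p hp
      obtain ⟨h, t, X', Y', m', H⟩ := ex_root d m hm p.1 p.2 h1 h2 h3
      exact ⟨h, t, X', Y', m', fun _ => H⟩
    · exact ⟨0, 0, 0, 0, 0, fun h => absurd h hp⟩
  choose h t X' Y' m' H using hex
  set v : ℕ × ℕ → ℝ := fun p => (X' p : ℝ) + Y' p * Real.sqrt d with hv
  set R : Finset (Σ _ : ℕ, ℕ × ℕ) := m.natAbs.divisors.sigma (fun h =>
    ((range (m.natAbs / h ^ 2)).filter
        (fun t : ℕ => ((m.natAbs / h ^ 2 : ℕ) : ℤ) ∣ (t : ℤ) ^ 2 - d)) ×ˢ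
      range (Nat.log 2 ⌊W⌋₊ + 1)) with hR
  have hRc : R.card = ∑ h ∈ m.natAbs.divisors,
      ((range (m.natAbs / h ^ 2)).filter
        (fun t : ℕ => ((m.natAbs / h ^ 2 : ℕ) : ℤ) ∣ (t : ℤ) ^ 2 - d)).card *
        (Nat.log 2 ⌊W⌋₊ + 1) := by
    rw [hR, Finset.card_sigma]
    refine Finset.sum_congr rfl fun h _ => ?_
    rw [Finset.card_product, Finset.card_range]
  rw [← hRc]
  have hsd : 0 < Real.sqrt d := Real.sqrt_pos.2 (by exact_mod_cast (by omega : 0 < d))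
  have hdiv : ∀ p ∈ T, m.natAbs / h p ^ 2 = (m' p).natAbs := by
    intro p hp
    obtain ⟨h1, -, -, h4, -⟩ := H p hp
    have h5 : m.natAbs = h p ^ 2 * (m' p).natAbs := by
      have h6 := congrArg Int.natAbs h4
      rw [Int.natAbs_mul, Int.natAbs_pow, Int.natAbs_natCast] at h6
      exact h6
    rw [h5, Nat.mul_div_cancel_left _ (pow_pos (by omega) 2)]
  have hv1 : ∀ p ∈ T, 1 ≤ v p := by
    intro p hp
    obtain ⟨-, -, -, -, -, -, -, -, -, h10, -⟩ := H p hp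
    have h11 : (1 : ℝ) ≤ X' p := by exact_mod_cast h10
    have h12 : 0 ≤ (Y' p : ℝ) * Real.sqrt d := mul_nonneg (Nat.cast_nonneg _) hsd.le
    show (1 : ℝ) ≤ (X' p : ℝ) + Y' p * Real.sqrt d
    linarith
  have hvW : ∀ p ∈ T, v p ≤ W := by
    intro p hp
    obtain ⟨h1, h2, h3, -⟩ := H p hp
    refine le_trans ?_ (hT p hp).2.2.2
    have h5 : (1 : ℝ) ≤ h p := by exact_mod_cast h1
    have h6 : (p.1 : ℝ) = h p * X' p := by exact_mod_cast h2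
    have h7 : (p.2 : ℝ) = h p * Y' p := by exact_mod_cast h3
    have h8 : (0 : ℝ) ≤ X' p := Nat.cast_nonneg _
    have h9 : 0 ≤ (Y' p : ℝ) * Real.sqrt d := mul_nonneg (Nat.cast_nonneg _) hsd.le
    show (X' p : ℝ) + Y' p * Real.sqrt d ≤ _
    rw [h6, h7]
    nlinarith
  refine Finset.card_le_card_of_injOn
    (fun p => (⟨h p, (t p, Nat.log 2 ⌊v p⌋₊)⟩ : Σ _ : ℕ, ℕ × ℕ)) ?_ ?_
  · intro p hp
    have hp' : p ∈ T := hp
    obtain ⟨h1, -, -, h4, h5, -, h7, -, h9, -, -⟩ := H p hp'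
    have hd' := hdiv p hp'
    refine Finset.mem_coe.2 (Finset.mem_sigma.2 ⟨?_, ?_⟩)
    · show h p ∈ m.natAbs.divisors
      rw [Nat.mem_divisors]
      refine ⟨?_, Int.natAbs_ne_zero.2 hm⟩
      have h6 : (h p : ℤ) ∣ m := by
        rw [h4, sq, mul_assoc]
        exact dvd_mul_right _ _
      exact Int.natCast_dvd.1 h6
    · refine Finset.mem_product.2 ⟨Finset.mem_filter.2 ⟨Finset.mem_range.2 ?_, ?_⟩,
        Finset.mem_range.2 ?_⟩
      · show t p < m.natAbs / h p ^ 2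
        rw [hd']
        exact h7
      · show ((m.natAbs / h p ^ 2 : ℕ) : ℤ) ∣ (t p : ℤ) ^ 2 - d
        rw [hd']
        exact Int.natAbs_dvd.2 h9
      · show Nat.log 2 ⌊v p⌋₊ < Nat.log 2 ⌊W⌋₊ + 1
        exact Nat.lt_succ_of_le (Nat.log_mono_right (Nat.floor_le_floor (hvW p hp')))
  · -- injectivity
    have key : ∀ p ∈ T, ∀ r ∈ T, h p = h r → t p = t r →
        Nat.log 2 ⌊v p⌋₊ = Nat.log 2 ⌊v r⌋₊ → ¬ v p < v r := by
      intro p hp r hr e1 e2 e3 hlt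
      obtain ⟨a1, -, -, a4, a5, a6, -, a8, a9, a10, a11⟩ := H p hp
      obtain ⟨b1, -, -, b4, b5, b6, -, b8, b9, b10, b11⟩ := H r hr
      have hmm : m' r = m' p := by
        have h1 : ((h p : ℤ)) ^ 2 * m' r = (h p : ℤ) ^ 2 * m' p := by
          rw [← a4, e1, ← b4]
        have h2 : ((h p : ℤ)) ^ 2 ≠ 0 := pow_ne_zero 2 (by
          have : (1 : ℤ) ≤ h p := by exact_mod_cast a1
          omega)
        exact mul_left_cancel₀ h2 h1
      rw [hmm] at b6 b8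
      rw [← e2] at b8
      obtain ⟨k1, hk1⟩ := a8
      obtain ⟨k2, hk2⟩ := b8
      obtain ⟨k3, hk3⟩ := a9
      have h1 : m' p ∣ (X' p : ℤ) * Y' r - X' r * Y' p :=
        ⟨k1 * Y' r - k2 * Y' p, by linear_combination (Y' r : ℤ) * hk1 - (Y' p : ℤ) * hk2⟩
      have h2 : m' p ∣ (X' p : ℤ) * X' r - d * (Y' p * Y' r) :=
        ⟨k1 * X' r + t p * Y' p * k2 + k3 * (Y' p * Y' r), by
          linear_combination (X' r : ℤ) * hk1 + (t p * Y' p : ℤ) * hk2 +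
            ((Y' p : ℤ) * Y' r) * hk3⟩
      have h3 := hG d (m' p) (X' p) (Y' p) (X' r) (Y' r) a10 a11 b10 b11 hd hds a5 a6 b6 h1 h2
        hlt
      have h4 := log_step (v p) (v r) (hv1 p hp) h3
      omega
    intro p hp r hr e
    have hp' : p ∈ T := hp
    have hr' : r ∈ T := hr
    have e1 : h p = h r := congrArg Sigma.fst e
    have e0 : (t p, Nat.log 2 ⌊v p⌋₊) = (t r, Nat.log 2 ⌊v r⌋₊) := by
      have := congrArg Sigma.snd e
      exact this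
    obtain ⟨e2, e3⟩ := Prod.mk.inj e0
    have hvv : v p = v r := by
      rcases lt_trichotomy (v p) (v r) with h1 | h1 | h1
      · exact absurd h1 (key p hp' r hr' e1 e2 e3)
      · exact h1
      · exact absurd h1 (key r hr' p hp' e1.symm e2.symm e3.symm)
    obtain ⟨a1, a2, a3, a4, a5, a6, -, -, -, a10, a11⟩ := H p hp'
    obtain ⟨b1, b2, b3, b4, b5, b6, -, -, -, b10, b11⟩ := H r hr'
    have hmm : m' r = m' p := by
      have h1 : ((h p : ℤ)) ^ 2 * m' r = (h p : ℤ) ^ 2 * m' p := by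
        rw [← a4, e1, ← b4]
      have h2 : ((h p : ℤ)) ^ 2 ≠ 0 := pow_ne_zero 2 (by
        have : (1 : ℤ) ≤ h p := by exact_mod_cast a1
        omega)
      exact mul_left_cancel₀ h2 h1
    rw [hmm] at b6
    have hd2 : Real.sqrt d * Real.sqrt d = d := Real.mul_self_sqrt (Nat.cast_nonneg _)
    have r1 : ((X' p : ℝ) + Y' p * Real.sqrt d) * ((X' p : ℝ) - Y' p * Real.sqrt d) =
        (m' p : ℝ) := by
      have h1 : (X' p : ℝ) ^ 2 - d * (Y' p : ℝ) ^ 2 = (m' p : ℝ) := by exact_mod_cast a6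
      linear_combination h1 - ((Y' p : ℝ) ^ 2) * hd2
    have r2 : ((X' r : ℝ) + Y' r * Real.sqrt d) * ((X' r : ℝ) - Y' r * Real.sqrt d) =
        (m' p : ℝ) := by
      have h1 : (X' r : ℝ) ^ 2 - d * (Y' r : ℝ) ^ 2 = (m' p : ℝ) := by exact_mod_cast b6
      linear_combination h1 - ((Y' r : ℝ) ^ 2) * hd2
    have hvv' : (X' p : ℝ) + Y' p * Real.sqrt d = (X' r : ℝ) + Y' r * Real.sqrt d := hvv
    have hpos : 0 < (X' r : ℝ) + Y' r * Real.sqrt d := by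
      have := hv1 r hr'
      have h2 : v r = (X' r : ℝ) + Y' r * Real.sqrt d := rfl
      linarith
    have r3 : (X' p : ℝ) - Y' p * Real.sqrt d = (X' r : ℝ) - Y' r * Real.sqrt d := by
      rw [hvv', ← r2] at r1
      exact mul_left_cancel₀ hpos.ne' r1
    have r4 : (X' p : ℝ) = X' r := by linarith
    have r5 : (Y' p : ℝ) = Y' r := by
      have h1 : (Y' p : ℝ) * Real.sqrt d = Y' r * Real.sqrt d := by linarith
      exact mul_right_cancel₀ hsd.ne' h1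
    have r6 : X' p = X' r := by exact_mod_cast r4
    have r7 : Y' p = Y' r := by exact_mod_cast r5
    refine Prod.ext ?_ ?_
    · rw [a2, b2, e1, r6]
    · rw [a3, b3, e1, r7]

lemma log_bound (δ : ℝ) (hδ : 0 < δ) (N : ℕ) (hN : 1 ≤ N) :
    ((Nat.log 2 ⌊(2 * (N : ℝ) ^ 2)⌋₊ + 1 : ℕ) : ℝ) ≤ (2 + 4 / δ) * (N : ℝ) ^ δ := by
  have hN1 : (1 : ℝ) ≤ N := by exact_mod_cast hN
  have e : ⌊(2 * (N : ℝ) ^ 2)⌋₊ = 2 * N ^ 2 := by
    have h1 : (2 * (N : ℝ) ^ 2) = ((2 * N ^ 2 : ℕ) : ℝ) := by push_cast; rfl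
    rw [h1, Nat.floor_natCast]
  rw [e]
  have hn0 : 2 * N ^ 2 ≠ 0 := by positivity
  have h1 : ((2 : ℝ)) ^ (Nat.log 2 (2 * N ^ 2)) ≤ 2 * (N : ℝ) ^ 2 := by
    exact_mod_cast Nat.pow_log_le_self 2 hn0
  have h2 := Real.log_le_log (by positivity) h1
  rw [Real.log_pow, Real.log_mul (by norm_num) (by positivity), Real.log_pow] at h2
  have h3 : (0.5 : ℝ) ≤ Real.log 2 := by
    have := Real.log_two_gt_d9
    linarith
  have h4 : Real.log N ≤ (N : ℝ) ^ δ / δ := Real.log_le_rpow_div (by linarith) hδ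
  have h5 : 0 ≤ Real.log N := Real.log_nonneg hN1
  have h6 : (1 : ℝ) ≤ (N : ℝ) ^ δ := Real.one_le_rpow hN1 hδ.le
  obtain ⟨k, hk⟩ : ∃ k : ℝ, k = (Nat.log 2 (2 * N ^ 2) : ℝ) := ⟨_, rfl⟩
  rw [← hk] at h2
  push_cast at h2 ⊢
  rw [← hk]
  have h7 : (k - 1) * Real.log 2 ≤ 2 * Real.log N := by linarith
  have h8 : k - 1 ≤ 4 * Real.log N := by
    by_contra hc
    have hc' := not_le.1 hc
    nlinarith
  have h9 : 4 * Real.log N ≤ 4 / δ * (N : ℝ) ^ δ := by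
    have h10 : 4 / δ * (N : ℝ) ^ δ = 4 * ((N : ℝ) ^ δ / δ) := by ring
    rw [h10]
    linarith
  linarith

theorem st_PEL (hS : ST_SQR) (hG : ST_PGR) : ST_PEL := by
  classical
  intro ε hε
  obtain ⟨C1, hC1, hS'⟩ := hS (ε / 8) (by positivity)
  obtain ⟨C2, hC2, hD⟩ := Pool.Agent.Helper15.Hall.card_divisors_le_rpow (ε / 8) (by positivity)
  obtain ⟨C3, hC3⟩ : ∃ C3 : ℝ, C3 = 2 + 4 / (ε / 4) := ⟨_, rfl⟩
  have hC3p : 0 < C3 := by rw [hC3]; positivity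
  have hC2p : 0 < C2 := by linarith
  refine ⟨C2 + C1 * C2 * C3, by positivity, ?_⟩
  intro N a b c hN ha haN hsa hb hbN hsb hc hcN
  have hN1 : (1 : ℝ) ≤ N := by exact_mod_cast hN
  have hN0 : (0 : ℝ) < N := by linarith
  set S0 : Finset (ℕ × ℕ) := (Icc 1 N ×ˢ Icc 1 N).filter (fun t : ℕ × ℕ =>
    (a : ℤ) * (t.1 : ℤ) ^ 2 - b * (t.2 : ℤ) ^ 2 = c) with hS0
  rcases S0.eq_empty_or_nonempty with h0 | ⟨p0, hp0⟩
  · rw [h0, Finset.card_empty, Nat.cast_zero]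
    positivity
  have hmem : ∀ p ∈ S0, 1 ≤ p.1 ∧ p.1 ≤ N ∧ 1 ≤ p.2 ∧ p.2 ≤ N ∧
      (a : ℤ) * (p.1 : ℤ) ^ 2 - b * (p.2 : ℤ) ^ 2 = c := by
    intro p hp
    obtain ⟨h1, h2⟩ := Finset.mem_filter.1 hp
    obtain ⟨h3, h4⟩ := Finset.mem_product.1 h1
    obtain ⟨h5, h6⟩ := Finset.mem_Icc.1 h3
    obtain ⟨h7, h8⟩ := Finset.mem_Icc.1 h4
    exact ⟨h5, h6, h7, h8, h2⟩
  -- divide by the gcd
  obtain ⟨g, hg⟩ : ∃ g, g = Nat.gcd a b := ⟨_, rfl⟩
  have hgpos : 0 < g := hg ▸ Nat.gcd_pos_of_pos_left _ (by omega)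
  obtain ⟨a', ha'⟩ : g ∣ a := hg ▸ Nat.gcd_dvd_left _ _
  obtain ⟨b', hb'⟩ : g ∣ b := hg ▸ Nat.gcd_dvd_right _ _
  have hcop : Nat.Coprime a' b' := by
    have h1 : Nat.gcd (g * a') (g * b') = g * 1 := by
      rw [← ha', ← hb', ← hg, mul_one]
    rw [Nat.gcd_mul_left] at h1
    exact Nat.eq_of_mul_eq_mul_left hgpos h1
  have ha'1 : 1 ≤ a' := by
    rcases Nat.eq_zero_or_pos a' with h0 | h0
    · rw [h0, mul_zero] at ha'
      omega
    · exact h0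
  have hb'1 : 1 ≤ b' := by
    rcases Nat.eq_zero_or_pos b' with h0 | h0
    · rw [h0, mul_zero] at hb'
      omega
    · exact h0
  have ha'N : a' ≤ N := by
    have h1 : 1 * a' ≤ g * a' := Nat.mul_le_mul_right _ hgpos
    omega
  have hb'N : b' ≤ N := by
    have h1 : 1 * b' ≤ g * b' := Nat.mul_le_mul_right _ hgpos
    omega
  have hg0 : (g : ℤ) ≠ 0 := by exact_mod_cast hgpos.ne'
  obtain ⟨c', hc'⟩ : ∃ c' : ℤ, c' = (a' : ℤ) * (p0.1 : ℤ) ^ 2 - b' * (p0.2 : ℤ) ^ 2 := ⟨_, rfl⟩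
  have hcc : c = g * c' := by
    have h1 := (hmem p0 hp0).2.2.2.2
    rw [hc', ← h1, ha', hb']
    push_cast
    ring
  have hmem' : ∀ p ∈ S0, (a' : ℤ) * (p.1 : ℤ) ^ 2 - b' * (p.2 : ℤ) ^ 2 = c' := by
    intro p hp
    have h1 := (hmem p hp).2.2.2.2
    have h2 : (g : ℤ) * ((a' : ℤ) * (p.1 : ℤ) ^ 2 - b' * (p.2 : ℤ) ^ 2) = g * c' := by
      rw [← hcc, ← h1, ha', hb']
      push_cast
      ring
    exact mul_left_cancel₀ hg0 h2
  have hc'0 : c' ≠ 0 := by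
    intro h0
    rw [h0, mul_zero] at hcc
    exact hc hcc
  have hc'N : c'.natAbs ≤ N := by
    have h1 : c.natAbs = g * c'.natAbs := by
      have h2 := congrArg Int.natAbs hcc
      rw [Int.natAbs_mul, Int.natAbs_natCast] at h2
      exact h2
    have h2 : c.natAbs ≤ N := by
      have h3 : (c.natAbs : ℤ) ≤ N := by
        rw [Int.natCast_natAbs]
        exact hcN
      exact_mod_cast h3
    have h3 : 1 * c'.natAbs ≤ g * c'.natAbs := Nat.mul_le_mul_right _ hgpos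
    omega
  obtain ⟨d, hd⟩ : ∃ d, d = a' * b' := ⟨_, rfl⟩
  have hdsf : Squarefree d := by
    rw [hd]
    exact (Nat.squarefree_mul hcop).2 ⟨hsa.squarefree_of_dvd ⟨g, by rw [ha', mul_comm]⟩,
      hsb.squarefree_of_dvd ⟨g, by rw [hb', mul_comm]⟩⟩
  have hd1 : 1 ≤ d := hd ▸ Nat.mul_pos ha'1 hb'1
  have hNe : ∀ δ : ℝ, δ ≤ ε → (N : ℝ) ^ δ ≤ (N : ℝ) ^ ε := fun δ h =>
    Real.rpow_le_rpow_of_exponent_le hN1 h
  have hNε : 0 < (N : ℝ) ^ ε := Real.rpow_pos_of_pos hN0 _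
  rcases Nat.lt_or_ge d 2 with hlt | hge
  · -- `d = 1`
    have hd' : a' * b' = 1 := by omega
    have ha1 : a' = 1 := Nat.eq_one_of_mul_eq_one_right hd'
    have hb1 : b' = 1 := Nat.eq_one_of_mul_eq_one_left hd'
    have h1 : S0.card ≤ c'.natAbs.divisors.card := by
      refine Finset.card_le_card_of_injOn (fun p => p.1 + p.2) ?_ ?_
      · intro p hp
        have hp' : p ∈ S0 := hp
        have h2 := hmem' p hp'
        rw [ha1, hb1] at h2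
        refine Finset.mem_coe.2 (Nat.mem_divisors.2 ⟨?_, Int.natAbs_ne_zero.2 hc'0⟩)
        refine Int.natCast_dvd.1 ⟨(p.1 : ℤ) - p.2, ?_⟩
        rw [← h2]
        push_cast
        ring
      · intro p hp r hr e
        have hp' : p ∈ S0 := hp
        have hr' : r ∈ S0 := hr
        have e' : p.1 + p.2 = r.1 + r.2 := e
        have h2 := hmem' p hp'
        have h3 := hmem' r hr'
        rw [ha1, hb1] at h2 h3
        obtain ⟨q1, -, -⟩ := hmem p hp'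
        have e1 : (p.1 : ℤ) + p.2 = r.1 + r.2 := by exact_mod_cast e'
        have h4 : ((p.1 : ℤ) + p.2) * ((p.1 : ℤ) - p.2) = ((p.1 : ℤ) + p.2) *
            ((r.1 : ℤ) - r.2) := by
          have h5 : ((r.1 : ℤ) + r.2) * ((r.1 : ℤ) - r.2) = c' := by
            rw [← h3]
            push_cast
            ring
          rw [← e1] at h5
          rw [h5, ← h2]
          push_cast
          ring
        have h6 : ((p.1 : ℤ) + p.2) ≠ 0 := by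
          have : (1 : ℤ) ≤ p.1 := by exact_mod_cast q1
          have h7 : (0 : ℤ) ≤ p.2 := Int.natCast_nonneg _
          omega
        have h7 := mul_left_cancel₀ h6 h4
        refine Prod.ext ?_ ?_
        · have : (p.1 : ℤ) = r.1 := by linarith
          exact_mod_cast this
        · have : (p.2 : ℤ) = r.2 := by linarith
          exact_mod_cast this
    have h2 := hD c'.natAbs (Int.natAbs_ne_zero.2 hc'0)
    have h3 : ((c'.natAbs : ℕ) : ℝ) ^ (ε / 8) ≤ (N : ℝ) ^ (ε / 8) :=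
      Real.rpow_le_rpow (Nat.cast_nonneg _) (by exact_mod_cast hc'N) (by positivity)
    have h4 : (S0.card : ℝ) ≤ c'.natAbs.divisors.card := by exact_mod_cast h1
    calc (S0.card : ℝ) ≤ C2 * ((c'.natAbs : ℕ) : ℝ) ^ (ε / 8) := h4.trans h2
      _ ≤ C2 * (N : ℝ) ^ (ε / 8) := mul_le_mul_of_nonneg_left h3 hC2p.le
      _ ≤ C2 * (N : ℝ) ^ ε := mul_le_mul_of_nonneg_left (hNe _ (by linarith)) hC2p.le
      _ ≤ (C2 + C1 * C2 * C3) * (N : ℝ) ^ ε := by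
          refine mul_le_mul_of_nonneg_right ?_ hNε.le
          have : 0 < C1 * C2 * C3 := by positivity
          linarith
  · -- `d ≥ 2`
    have hds : ¬ IsSquare d := by
      rintro ⟨k, hk⟩
      have h1 := hdsf k ⟨1, by rw [mul_one, hk]⟩
      have h2 : k = 1 := Nat.isUnit_iff.1 h1
      rw [h2] at hk
      omega
    obtain ⟨m, hm⟩ : ∃ m : ℤ, m = a' * c' := ⟨_, rfl⟩
    have hm0 : m ≠ 0 := by
      rw [hm]
      exact mul_ne_zero (by exact_mod_cast (by omega : a' ≠ 0)) hc'0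
    have hMN : m.natAbs ≤ N ^ 2 := by
      rw [hm, Int.natAbs_mul, Int.natAbs_natCast, sq]
      exact Nat.mul_le_mul ha'N hc'N
    set T : Finset (ℕ × ℕ) := S0.image (fun p => (a' * p.1, p.2)) with hTdef
    have hTc : T.card = S0.card := by
      refine Finset.card_image_of_injOn ?_
      intro p _ r _ e
      have e0 : (a' * p.1, p.2) = (a' * r.1, r.2) := e
      obtain ⟨e1, e2⟩ := Prod.mk.inj e0
      exact Prod.ext (Nat.eq_of_mul_eq_mul_left (by omega) e1) e2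
    have hsqd : Real.sqrt d ≤ N := by
      rw [Real.sqrt_le_left (by linarith)]
      have h1 : d ≤ N ^ 2 := by
        rw [hd, sq]
        exact Nat.mul_le_mul ha'N hb'N
      exact_mod_cast h1
    have hT : ∀ p ∈ T, 1 ≤ p.1 ∧ 1 ≤ p.2 ∧ (p.1 : ℤ) ^ 2 - d * (p.2 : ℤ) ^ 2 = m ∧
        (p.1 : ℝ) + p.2 * Real.sqrt d ≤ 2 * (N : ℝ) ^ 2 := by
      intro p hp
      obtain ⟨q, hq, rfl⟩ := Finset.mem_image.1 hp
      obtain ⟨h1, h2, h3, h4, -⟩ := hmem q hq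
      have h5 := hmem' q hq
      refine ⟨Nat.mul_pos ha'1 h1, h3, ?_, ?_⟩
      · show ((a' * q.1 : ℕ) : ℤ) ^ 2 - d * (q.2 : ℤ) ^ 2 = m
        rw [hm, ← h5, hd]
        push_cast
        ring
      · show ((a' * q.1 : ℕ) : ℝ) + q.2 * Real.sqrt d ≤ 2 * (N : ℝ) ^ 2
        have h6 : ((a' * q.1 : ℕ) : ℝ) ≤ (N : ℝ) ^ 2 := by
          have h7 : a' * q.1 ≤ N ^ 2 := by
            rw [sq]
            exact Nat.mul_le_mul ha'N h2
          exact_mod_cast h7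
        have h8 : (q.2 : ℝ) * Real.sqrt d ≤ (N : ℝ) * N :=
          mul_le_mul (by exact_mod_cast h4) hsqd (Real.sqrt_nonneg _) hN0.le
        nlinarith
    have h1 := cnt hG d hge hds m hm0 (2 * (N : ℝ) ^ 2) T hT
    rw [hTc] at h1
    have h2 : (S0.card : ℝ) ≤ ∑ h ∈ m.natAbs.divisors,
        C1 * ((m.natAbs : ℕ) : ℝ) ^ (ε / 8) * (C3 * (N : ℝ) ^ (ε / 4)) := by
      have h1' := (Nat.cast_le (α := ℝ)).2 h1
      rw [Nat.cast_sum] at h1'
      refine h1'.trans (Finset.sum_le_sum fun h hh => ?_)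
      rw [Nat.cast_mul]
      obtain ⟨h3, -⟩ := Nat.mem_divisors.1 hh
      have hh0 : 0 < h := Nat.pos_of_mem_divisors hh
      have h5 := log_bound (ε / 4) (by positivity) N hN
      rw [← hC3] at h5
      have h6 : (((range (m.natAbs / h ^ 2)).filter
          (fun t : ℕ => ((m.natAbs / h ^ 2 : ℕ) : ℤ) ∣ (t : ℤ) ^ 2 - d)).card : ℝ) ≤
          C1 * ((m.natAbs : ℕ) : ℝ) ^ (ε / 8) := by
        rcases Nat.eq_zero_or_pos (m.natAbs / h ^ 2) with h7 | h7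
        · rw [h7, Finset.range_zero, Finset.filter_empty, Finset.card_empty, Nat.cast_zero]
          positivity
        · refine (hS' _ d h7 hdsf).trans (mul_le_mul_of_nonneg_left ?_ hC1.le)
          refine Real.rpow_le_rpow (Nat.cast_nonneg _) ?_ (by positivity)
          exact_mod_cast Nat.div_le_self _ _
      exact mul_le_mul h6 h5 (Nat.cast_nonneg _) (by positivity)
    rw [Finset.sum_const, nsmul_eq_mul] at h2
    have h3 := hD m.natAbs (Int.natAbs_ne_zero.2 hm0)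
    have h4 : ((m.natAbs : ℕ) : ℝ) ^ (ε / 8) ≤ (N : ℝ) ^ (ε / 4) := by
      have h5 : ((m.natAbs : ℕ) : ℝ) ≤ (N : ℝ) ^ (2 : ℝ) := by
        rw [Real.rpow_two]
        exact_mod_cast hMN
      have h6 := Real.rpow_le_rpow (Nat.cast_nonneg _) h5 (by positivity : 0 ≤ ε / 8)
      rw [← Real.rpow_mul hN0.le] at h6
      have h7 : 2 * (ε / 8) = ε / 4 := by ring
      rw [h7] at h6
      exact h6
    have hM0 : 0 ≤ ((m.natAbs : ℕ) : ℝ) ^ (ε / 8) := Real.rpow_nonneg (Nat.cast_nonneg _) _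
    have hN4 : 0 ≤ (N : ℝ) ^ (ε / 4) := Real.rpow_nonneg hN0.le _
    calc (S0.card : ℝ) ≤ (m.natAbs.divisors.card : ℝ) *
          (C1 * ((m.natAbs : ℕ) : ℝ) ^ (ε / 8) * (C3 * (N : ℝ) ^ (ε / 4))) := h2
      _ ≤ (C2 * (N : ℝ) ^ (ε / 4)) * (C1 * (N : ℝ) ^ (ε / 4) * (C3 * (N : ℝ) ^ (ε / 4))) := by
          refine mul_le_mul (h3.trans (mul_le_mul_of_nonneg_left h4 hC2p.le)) ?_ (by positivity)
            (by positivity)
          refine mul_le_mul_of_nonneg_right ?_ (by positivity)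
          exact mul_le_mul_of_nonneg_left h4 hC1.le
      _ = C1 * C2 * C3 * (N : ℝ) ^ (ε / 4 + ε / 4 + ε / 4) := by
          rw [Real.rpow_add hN0, Real.rpow_add hN0]
          ring
      _ ≤ C1 * C2 * C3 * (N : ℝ) ^ ε :=
          mul_le_mul_of_nonneg_left (hNe _ (by linarith)) (by positivity)
      _ ≤ (C2 + C1 * C2 * C3) * (N : ℝ) ^ ε := by
          refine mul_le_mul_of_nonneg_right ?_ hNε.le
          linarith

end Pool.Agent.Helper52.RD
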